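import Mathlib
import Pool.Agent.Helper81.ZX.Goals

set_option autoImplicit false

open MeasureTheory ProbabilityTheory Set
open scoped ENNReal
open Pool.Agent.Helper97.ZRP Pool.Agent.Helper81.ZX

namespace Pool.Agent.Helper62.ZX

lemma total_add {d : ℕ} (a b : Conf d) : total (a + b) = total a + total b := by
  unfold total
  exact Finsupp.sum_add_index' (fun _ => rfl) (fun _ _ _ => rfl)

lemma total_single {d : ℕ} (x : Site d) : total (Finsupp.single x 1 : Conf d) = 1 := by
  unfold total
  exact Finsupp.sum_single_index rfl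

lemma total_jump {d : ℕ} (ζ : Conf d) (x y : Site d) (hx : ζ x ≠ 0) :
    total (jump ζ x y) = total ζ := by
  have hle : Finsupp.single x 1 ≤ ζ := by
    rw [Finsupp.single_le_iff]
    exact Nat.one_le_iff_ne_zero.2 hx
  have h1 : ζ - Finsupp.single x 1 + Finsupp.single x 1 = ζ := tsub_add_cancel_of_le hle
  have h2 := total_add (ζ - Finsupp.single x 1) (Finsupp.single x 1)
  rw [h1, total_single] at h2
  unfold jump
  rw [total_add, total_single, h2]

lemma total_eq {d : ℕ} (ζ : Conf d) : total ζ = ∑ x ∈ ζ.support, ζ x := rfl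

lemma apply_le_total {d : ℕ} (ζ : Conf d) (x : Site d) : ζ x ≤ total ζ := by
  by_cases hx : x ∈ ζ.support
  · rw [total_eq]
    exact Finset.single_le_sum (f := fun x => ζ x) (fun _ _ => Nat.zero_le _) hx
  · rw [Finsupp.notMem_support_iff.1 hx]
    exact Nat.zero_le _

lemma card_le_total {d : ℕ} (ζ : Conf d) : ζ.support.card ≤ total ζ := by
  rw [total_eq, Finset.card_eq_sum_ones]
  refine Finset.sum_le_sum (fun x hx => ?_)
  exact Nat.one_le_iff_ne_zero.2 (Finsupp.mem_support_iff.1 hx)

lemma pz_univ {d : ℕ} {p : Site d → ℝ} (hp : IsKernel p) : pz p univ = 1 := by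
  unfold pz
  rw [Measure.sum_apply _ MeasurableSet.univ]
  have h : ∀ z : Site d, (ENNReal.ofReal (p z) • Measure.dirac z) (univ : Set (Site d)) =
      ENNReal.ofReal (p z) := by
    intro z
    rw [Measure.smul_apply, measure_univ, smul_eq_mul, mul_one]
  rw [tsum_congr h, ← ENNReal.ofReal_tsum_of_nonneg hp.1 hp.2.summable, hp.2.tsum_eq,
    ENNReal.ofReal_one]

lemma pz_isProb {d : ℕ} {p : Site d → ℝ} (hp : IsKernel p) : IsProbabilityMeasure (pz p) :=
  ⟨pz_univ hp⟩

lemma integral_pz {d : ℕ} {p : Site d → ℝ} (hp : IsKernel p) (h : Site d → ℝ) (C : ℝ)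
    (hC : ∀ z, |h z| ≤ C) : ∫ z, h z ∂(pz p) = ∑' z, p z * h z := by
  have := pz_isProb hp
  have hint : Integrable h (pz p) :=
    Integrable.of_bound (Measurable.of_discrete).aestronglyMeasurable C
      (Filter.Eventually.of_forall hC)
  unfold pz at hint ⊢
  rw [integral_sum_measure hint]
  refine tsum_congr (fun z => ?_)
  rw [integral_smul_measure, integral_dirac, ENNReal.toReal_ofReal (hp.1 z), smul_eq_mul]

lemma g_nonneg {g : ℕ → ℝ} (hg : IsRate g) (n : ℕ) : 0 ≤ g n := by
  have h := hg.2.1 (Nat.zero_le n)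
  rw [hg.1] at h
  exact h

theorem gS : GoalS := by
  intro d N g p hg hp
  have := pz_isProb hp
  refine ⟨fun ζ => ?_, fun f hf ζ => ?_⟩
  · unfold R1
    rw [Measure.finsetSum_apply]
    have h1 : ∀ x ∈ ζ.1.support,
        (ENNReal.ofReal (g (ζ.1 x)) • (pz p).map (jmp ζ x)) univ ≤ ENNReal.ofReal (g N) := by
      intro x _
      rw [Measure.smul_apply, Measure.map_apply Measurable.of_discrete MeasurableSet.univ,
        preimage_univ, pz_univ hp, smul_eq_mul, mul_one]
      refine ENNReal.ofReal_le_ofReal (hg.2.1 ?_)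
      have := apply_le_total ζ.1 x
      rwa [ζ.2] at this
    refine (Finset.sum_le_sum h1).trans ?_
    rw [Finset.sum_const, nsmul_eq_mul]
    have h2 : ζ.1.support.card ≤ N := by
      have := card_le_total ζ.1
      rwa [ζ.2] at this
    have h3 : ((ζ.1.support.card : ℕ) : ℝ≥0∞) ≤ ENNReal.ofReal (N : ℝ) := by
      rw [ENNReal.ofReal_natCast]
      exact_mod_cast h2
    refine (mul_le_mul_left h3 _).trans ?_
    rw [← ENNReal.ofReal_mul (Nat.cast_nonneg N)]
    exact ENNReal.ofReal_le_ofReal (by linarith)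
  · obtain ⟨C, hC⟩ := hf
    unfold rateL R1 gen
    have hbd : ∀ ξ : T1 d N, |f ξ.1 - f ζ.1| ≤ C + C := by
      intro ξ
      exact (abs_sub _ _).trans (add_le_add (hC _ ξ.2) (hC _ ζ.2))
    have hmeas : Measurable (fun y : T1 d N => f y.1 - f ζ.1) := Measurable.of_discrete
    rw [integral_finsetSum_measure]
    · refine Finset.sum_congr rfl (fun x hx => ?_)
      have hx0 : ζ.1 x ≠ 0 := Finsupp.mem_support_iff.1 hx
      rw [integral_smul_measure, ENNReal.toReal_ofReal (g_nonneg hg _),
        integral_map (Measurable.of_discrete).aemeasurable hmeas.aestronglyMeasurable,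
        integral_pz hp _ (C + C) (fun z => hbd _), smul_eq_mul, ← tsum_mul_left]
      refine tsum_congr (fun z => ?_)
      have ht : total (jump ζ.1 x (x + z)) = N := by
        rw [total_jump _ _ _ hx0]
        exact ζ.2
      have hj : (jmp ζ x z).1 = jump ζ.1 x (x + z) := by
        unfold jmp
        rw [dif_pos ht]
      rw [hj, mul_assoc]
    · intro x _
      have : IsProbabilityMeasure ((pz p).map (jmp ζ x)) :=
        Measure.isProbabilityMeasure_map (Measurable.of_discrete).aemeasurable
      refine Integrable.smul_measure ?_ ENNReal.ofReal_ne_top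
      exact Integrable.of_bound hmeas.aestronglyMeasurable (C + C)
        (Filter.Eventually.of_forall hbd)

end Pool.Agent.Helper62.ZX
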